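import Pool.Agent.Helper32.SO.MemCell

/-!
# SO-12: linear programming duality for the transport problem, from the potential lemma SO-1
-/

set_option autoImplicit false

namespace Pool.Agent.Helper28.SO

/-- moving mass along a cycle -/
noncomputable def d12move {n d : ℕ} {m : ℕ} (lam : Fin n → Fin d → ℝ) (ε : ℝ)
    (p : Fin (m + 1) → Fin d × Fin d × ℝ) (it : Fin (m + 1) → Fin n) (i : Fin n) (c : Fin d) : ℝ :=
  lam i c + ε * ∑ t, ((if i = it t ∧ c = (p t).2.1 then (1 : ℝ) else 0) -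
    (if i = it t ∧ c = (p t).1 then (1 : ℝ) else 0))

theorem d12row {n d : ℕ} {m : ℕ} (lam : Fin n → Fin d → ℝ) (ε : ℝ)
    (p : Fin (m + 1) → Fin d × Fin d × ℝ) (it : Fin (m + 1) → Fin n) (i : Fin n) :
    ∑ c, d12move lam ε p it i c = ∑ c, lam i c := by
  unfold d12move
  rw [Finset.sum_add_distrib, ← Finset.mul_sum, Finset.sum_comm]
  have h : ∀ t : Fin (m + 1), ∑ c, ((if i = it t ∧ c = (p t).2.1 then (1 : ℝ) else 0) -
      (if i = it t ∧ c = (p t).1 then (1 : ℝ) else 0)) = 0 := by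
    intro t
    rw [Finset.sum_sub_distrib]
    by_cases hi : i = it t
    · simp [hi]
    · simp [hi]
  rw [Finset.sum_congr rfl fun t _ => h t]
  simp

theorem d12col {n d : ℕ} {m : ℕ} (lam : Fin n → Fin d → ℝ) (ε : ℝ)
    (p : Fin (m + 1) → Fin d × Fin d × ℝ) (it : Fin (m + 1) → Fin n)
    (hp : ∀ t : Fin (m + 1), (p t).2.1 = (p (t + 1)).1) (c : Fin d) :
    ∑ i, d12move lam ε p it i c = ∑ i, lam i c := by
  unfold d12move
  rw [Finset.sum_add_distrib, ← Finset.mul_sum, Finset.sum_comm]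
  have h : ∀ t : Fin (m + 1), ∑ i, ((if i = it t ∧ c = (p t).2.1 then (1 : ℝ) else 0) -
      (if i = it t ∧ c = (p t).1 then (1 : ℝ) else 0)) =
      (if c = (p (t + 1)).1 then (1 : ℝ) else 0) - (if c = (p t).1 then (1 : ℝ) else 0) := by
    intro t
    rw [Finset.sum_sub_distrib, hp t]
    congr 1
    · by_cases hc : c = (p (t + 1)).1
      · simp [hc]
      · simp [hc]
    · by_cases hc : c = (p t).1
      · simp [hc]
      · simp [hc]
  rw [Finset.sum_congr rfl fun t _ => h t, Finset.sum_sub_distrib]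
  have h2 : ∑ t : Fin (m + 1), (if c = (p (t + 1)).1 then (1 : ℝ) else 0) =
      ∑ t : Fin (m + 1), (if c = (p t).1 then (1 : ℝ) else 0) :=
    Equiv.sum_comp (Equiv.addRight (1 : Fin (m + 1)))
      (fun t => if c = (p t).1 then (1 : ℝ) else 0)
  rw [h2]
  simp

theorem d12cost {n d : ℕ} {m : ℕ} (w lam : Fin n → Fin d → ℝ) (ε : ℝ)
    (p : Fin (m + 1) → Fin d × Fin d × ℝ) (it : Fin (m + 1) → Fin n) :
    ∑ i, ∑ c, w i c * d12move lam ε p it i c =
      ∑ i, ∑ c, w i c * lam i c + ε * ∑ t, (w (it t) (p t).2.1 - w (it t) (p t).1) := by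
  unfold d12move
  have h1 : ∀ i c, w i c * (lam i c + ε * ∑ t, ((if i = it t ∧ c = (p t).2.1 then (1 : ℝ) else 0) -
      (if i = it t ∧ c = (p t).1 then (1 : ℝ) else 0))) =
      w i c * lam i c + ε * ∑ t, (w i c * ((if i = it t ∧ c = (p t).2.1 then (1 : ℝ) else 0) -
      (if i = it t ∧ c = (p t).1 then (1 : ℝ) else 0))) := by
    intro i c
    rw [← Finset.mul_sum]
    ring
  simp only [h1, Finset.sum_add_distrib]
  congr 1
  simp only [← Finset.mul_sum]
  congr 1
  have h2 : ∑ i, ∑ c, w i c * ∑ t, ((if i = it t ∧ c = (p t).2.1 then (1 : ℝ) else 0) -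
      (if i = it t ∧ c = (p t).1 then (1 : ℝ) else 0)) =
      ∑ t, ∑ i, ∑ c, w i c * ((if i = it t ∧ c = (p t).2.1 then (1 : ℝ) else 0) -
      (if i = it t ∧ c = (p t).1 then (1 : ℝ) else 0)) := by
    simp only [Finset.mul_sum]
    rw [Finset.sum_comm]
    rw [Finset.sum_congr rfl fun c _ => Finset.sum_comm]
    rw [Finset.sum_comm]
    refine Finset.sum_congr rfl fun t _ => ?_
    rw [Finset.sum_comm]
  rw [h2]
  refine Finset.sum_congr rfl fun t _ => ?_
  have h3 : ∀ e : Fin d, ∑ i, ∑ c, w i c * (if i = it t ∧ c = e then (1 : ℝ) else 0) =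
      w (it t) e := by
    intro e
    rw [Finset.sum_eq_single (it t)]
    · rw [Finset.sum_eq_single e]
      · simp
      · intro c _ hc
        simp [hc]
      · intro h
        exact absurd (Finset.mem_univ _) h
    · intro i _ hi
      refine Finset.sum_eq_zero fun c _ => ?_
      simp [hi]
    · intro h
      exact absurd (Finset.mem_univ _) h
  have h4 : ∑ i, ∑ c, w i c * ((if i = it t ∧ c = (p t).2.1 then (1 : ℝ) else 0) -
      (if i = it t ∧ c = (p t).1 then (1 : ℝ) else 0)) =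
      ∑ i, ∑ c, w i c * (if i = it t ∧ c = (p t).2.1 then (1 : ℝ) else 0) -
      ∑ i, ∑ c, w i c * (if i = it t ∧ c = (p t).1 then (1 : ℝ) else 0) := by
    rw [← Finset.sum_sub_distrib]
    refine Finset.sum_congr rfl fun i _ => ?_
    rw [← Finset.sum_sub_distrib]
    refine Finset.sum_congr rfl fun c _ => ?_
    ring
  rw [h4, h3, h3]

theorem d12nonneg {n d : ℕ} {m : ℕ} (lam : Fin n → Fin d → ℝ) (h0 : ∀ i c, 0 ≤ lam i c) (ε : ℝ)
    (hε : 0 ≤ ε) (p : Fin (m + 1) → Fin d × Fin d × ℝ) (it : Fin (m + 1) → Fin n)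
    (hinj : Function.Injective (fun t => (p t).1)) (hle : ∀ t, ε ≤ lam (it t) (p t).1)
    (i : Fin n) (c : Fin d) : 0 ≤ d12move lam ε p it i c := by
  unfold d12move
  rw [Finset.sum_sub_distrib]
  have h1 : 0 ≤ ∑ t, (if i = it t ∧ c = (p t).2.1 then (1 : ℝ) else 0) :=
    Finset.sum_nonneg fun t _ => by split_ifs <;> norm_num
  have h2 : ε * ∑ t, (if i = it t ∧ c = (p t).1 then (1 : ℝ) else 0) ≤ lam i c := by
    by_cases hex : ∃ t, i = it t ∧ c = (p t).1
    · obtain ⟨t₀, hi, hc⟩ := hex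
      have h3 : ∑ t, (if i = it t ∧ c = (p t).1 then (1 : ℝ) else 0) = 1 := by
        rw [Finset.sum_eq_single t₀]
        · simp [hi, hc]
        · intro t _ ht
          have h4 : ¬ (i = it t ∧ c = (p t).1) := by
            rintro ⟨_, h5⟩
            exact ht (hinj (show (p t).1 = (p t₀).1 by rw [← h5, hc]))
          simp [h4]
        · intro h
          exact absurd (Finset.mem_univ _) h
      rw [h3, mul_one, hi, hc]
      exact hle t₀
    · push Not at hex
      have h3 : ∑ t, (if i = it t ∧ c = (p t).1 then (1 : ℝ) else 0) = 0 := by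
        refine Finset.sum_eq_zero fun t _ => ?_
        have h4 : ¬ (i = it t ∧ c = (p t).1) := fun h => hex t h.1 h.2
        simp [h4]
      rw [h3, mul_zero]
      exact h0 i c
  have h3 := mul_nonneg hε h1
  rw [mul_sub]
  linarith

/-- SO-12 (linear programming duality), from SO-1. -/
theorem exists_dual_of (hpot : ∀ (d : ℕ) (E : Finset (Fin d × Fin d × ℝ)),
    (∀ (m : ℕ) (p : Fin (m + 1) → Fin d × Fin d × ℝ), (∀ t, p t ∈ E) →
      (∀ t : Fin (m + 1), (p t).2.1 = (p (t + 1)).1) →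
      Function.Injective (fun t => (p t).1) → 0 ≤ ∑ t, (p t).2.2) →
    ∃ α : Fin d → ℝ, ∀ e ∈ E, α e.2.1 - α e.1 ≤ e.2.2) {n d : ℕ} (w : Fin n → Fin d → ℝ) (x : Fin d → ℝ)
    (hx : ∀ k, 0 ≤ x k) (hs : ∑ k, x k = (n : ℝ)) :
    ∃ y : Fin d → ℝ, x ∈ cell (argm w y) := by
  classical
  -- the transport polytope
  let K : Set (Fin n → Fin d → ℝ) :=
    {lam | (∀ i c, 0 ≤ lam i c) ∧ (∀ i, ∑ c, lam i c = 1) ∧ ∀ c, ∑ i, lam i c = x c}
  have hcont : ∀ i c, Continuous (fun lam : Fin n → Fin d → ℝ => lam i c) := fun i c =>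
    (continuous_apply c).comp (continuous_apply i)
  have hKc : IsCompact K := by
    have hsub : K ⊆ Set.pi Set.univ (fun _ : Fin n => Set.pi Set.univ
        (fun _ : Fin d => Set.Icc (0 : ℝ) 1)) := by
      rintro lam ⟨h1, h2, -⟩ i - c -
      refine ⟨h1 i c, ?_⟩
      rw [← h2 i]
      exact Finset.single_le_sum (fun c _ => h1 i c) (Finset.mem_univ c)
    have hcl : IsClosed K := by
      have e : K = (⋂ i, ⋂ c, {lam : Fin n → Fin d → ℝ | 0 ≤ lam i c}) ∩
          ((⋂ i, {lam : Fin n → Fin d → ℝ | ∑ c, lam i c = 1}) ∩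
            ⋂ c, {lam : Fin n → Fin d → ℝ | ∑ i, lam i c = x c}) := by
        ext lam
        simp [K]
      rw [e]
      refine IsClosed.inter (isClosed_iInter fun i => isClosed_iInter fun c =>
        isClosed_le continuous_const (hcont i c)) (IsClosed.inter (isClosed_iInter fun i =>
          isClosed_eq (continuous_finsetSum _ fun c _ => hcont i c) continuous_const)
          (isClosed_iInter fun c =>
            isClosed_eq (continuous_finsetSum _ fun i _ => hcont i c) continuous_const))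
    refine IsCompact.of_isClosed_subset ?_ hcl hsub
    exact isCompact_univ_pi fun _ => isCompact_univ_pi fun _ => isCompact_Icc
  have hKn : K.Nonempty := by
    rcases Nat.eq_zero_or_pos n with hn | hn
    · subst hn
      refine ⟨fun i => i.elim0, fun i => i.elim0, fun i => i.elim0, fun c => ?_⟩
      have h1 : ∑ k, x k = 0 := by rw [hs]; simp
      have h2 := (Finset.sum_eq_zero_iff_of_nonneg (fun k _ => hx k)).1 h1 c (Finset.mem_univ c)
      simp [h2]
    · have hn' : (0 : ℝ) < n := Nat.cast_pos.2 hn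
      refine ⟨fun _ c => x c / n, fun _ c => div_nonneg (hx c) hn'.le, fun _ => ?_, fun c => ?_⟩
      · rw [← Finset.sum_div, hs, div_self hn'.ne']
      · rw [Finset.sum_const, Finset.card_univ, Fintype.card_fin, nsmul_eq_mul]
        field_simp
  have hF : Continuous (fun lam : Fin n → Fin d → ℝ => ∑ i, ∑ c, w i c * lam i c) :=
    continuous_finsetSum _ fun i _ => continuous_finsetSum _ fun c _ =>
      continuous_const.mul (hcont i c)
  obtain ⟨lam, ⟨h0, hrow, hcol⟩, hmin⟩ := hKc.exists_isMinOn hKn hF.continuousOn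
  -- the edges
  let E : Finset (Fin d × Fin d × ℝ) :=
    ((Finset.univ : Finset (Fin n × Fin d × Fin d)).filter (fun q => 0 < lam q.1 q.2.1)).image
      (fun q => (q.2.1, q.2.2, w q.1 q.2.2 - w q.1 q.2.1))
  have hE : ∀ e ∈ E, ∃ i, 0 < lam i e.1 ∧ e.2.2 = w i e.2.1 - w i e.1 := by
    intro e he
    obtain ⟨q, hq, rfl⟩ := Finset.mem_image.1 he
    exact ⟨q.1, (Finset.mem_filter.1 hq).2, rfl⟩
  obtain ⟨y, hy⟩ := hpot d E (by
    intro m p hp hstep hinj
    choose it hit1 hit2 using fun t => hE (p t) (hp t)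
    obtain ⟨t₀, -, ht₀⟩ := Finset.exists_min_image (Finset.univ : Finset (Fin (m + 1)))
      (fun t => lam (it t) (p t).1) ⟨0, Finset.mem_univ _⟩
    set ε := lam (it t₀) (p t₀).1 with hε
    have hεpos : 0 < ε := hit1 t₀
    have hmem : d12move lam ε p it ∈ K := by
      refine ⟨fun i c => d12nonneg lam h0 ε hεpos.le p it hinj
        (fun t => ht₀ t (Finset.mem_univ t)) i c, fun i => ?_, fun c => ?_⟩
      · rw [d12row, hrow]
      · rw [d12col lam ε p it hstep, hcol]
    have h1 : ∑ i, ∑ c, w i c * lam i c ≤ ∑ i, ∑ c, w i c * d12move lam ε p it i c :=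
      hmin hmem
    rw [d12cost] at h1
    have h2 : 0 ≤ ε * ∑ t, (w (it t) (p t).2.1 - w (it t) (p t).1) := by linarith
    have h3 := nonneg_of_mul_nonneg_right h2 hεpos
    refine h3.trans (le_of_eq ?_)
    exact Finset.sum_congr rfl fun t _ => (hit2 t).symm)
  refine ⟨y, ?_⟩
  rw [mem_cell_iff]
  refine ⟨lam, h0, hrow, ?_, fun c => (hcol c).symm⟩
  intro i c hc
  by_contra hne
  have hpos : 0 < lam i c := lt_of_le_of_ne (h0 i c) (Ne.symm hne)
  apply hc
  unfold argm
  rw [Finset.mem_filter]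
  refine ⟨Finset.mem_univ _, fun k' => ?_⟩
  have h1 := hy (c, k', w i k' - w i c) (by
    refine Finset.mem_image.2 ⟨(i, c, k'), ?_, rfl⟩
    rw [Finset.mem_filter]
    exact ⟨Finset.mem_univ _, hpos⟩)
  simp only at h1
  linarith

end Pool.Agent.Helper28.SO
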