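import Pool.Agent.Helper30.SO.DualAux
import Pool.Agent.Helper84.SO.PotentialLe

/-!
# SO-12: linear programming duality for the transport problem
-/

set_option autoImplicit false

namespace Pool.Agent.Helper28.SO

/-- SO-12 (linear programming duality). -/
theorem exists_dual {n d : ℕ} (w : Fin n → Fin d → ℝ) (x : Fin d → ℝ)
    (hx : ∀ k, 0 ≤ x k) (hs : ∑ k, x k = (n : ℝ)) :
    ∃ y : Fin d → ℝ, x ∈ cell (argm w y) :=
  exists_dual_of (fun _ E h => potential_le E h) w x hx hs

end Pool.Agent.Helper28.SO
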