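import Pool.Agent.Helper28.SO.Defs

/-!
# SO-16: monotone spread-out families are ladders
-/

set_option autoImplicit false

namespace Pool.Agent.Helper28.SO

/-- SO-16 (combinatorial corollary). -/
theorem ladder_of_monotone {n d : ℕ} (v : Fin n → Fin d → ℕ) (hinj : Function.Injective v)
    (hv : ∀ i, ∑ k, v i k = n - 1)
    (hso : ∀ W : Finset (Fin n), W.Nonempty → ∀ m : Fin d → ℕ, (∀ i ∈ W, ∀ k, m k ≤ v i k) →
      ∑ k, m k ≤ n - W.card)
    (hmono : ∀ l i k, l < i → v l k ≠ 0 → v i k ≤ v l k) :
    IsLadder v (fun i => Finset.univ.filter (fun k => v i k = 0)) := by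
  classical
  refine ⟨?_, ?_⟩
  · intro i D
    set A : Finset (Fin n) := Finset.univ.filter
      (fun l => l < i ∧ Finset.univ.filter (fun k => v l k = 0) ⊆ D) with hA
    have hiA : i ∉ A := by
      rw [hA, Finset.mem_filter]
      rintro ⟨_, h, _⟩
      exact lt_irrefl _ h
    have h1 := hso (insert i A) ⟨i, Finset.mem_insert_self _ _⟩
      (fun k => if k ∈ D then 0 else v i k) (by
        intro l hl k
        by_cases hk : k ∈ D
        · simp [hk]
        · simp only [hk, if_false]
          rcases Finset.mem_insert.1 hl with rfl | hl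
          · exact le_rfl
          · rw [hA, Finset.mem_filter] at hl
            obtain ⟨_, hli, hN⟩ := hl
            refine hmono l i k hli fun h0 => hk (hN ?_)
            rw [Finset.mem_filter]
            exact ⟨Finset.mem_univ _, h0⟩)
    rw [Finset.card_insert_of_notMem hiA] at h1
    have h2 : ∑ k, (if k ∈ D then 0 else v i k) + ∑ k ∈ D, v i k = n - 1 := by
      rw [← hv i, ← Finset.sum_filter_add_sum_filter_not Finset.univ (fun k => k ∈ D) (v i),
        add_comm]
      congr 1
      · rw [Finset.filter_mem_eq_inter, Finset.univ_inter]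
      · rw [Finset.sum_filter]
        refine Finset.sum_congr rfl fun k _ => ?_
        by_cases hk : k ∈ D <;> simp [hk]
    have h3 : (insert i A).card ≤ n := by
      have h4 := Finset.card_le_univ (insert i A)
      rwa [Fintype.card_fin] at h4
    rw [Finset.card_insert_of_notMem hiA] at h3
    omega
  · intro i
    have h1 : ∑ k ∈ Finset.univ.filter (fun k => v i k = 0), v i k = 0 := by
      refine Finset.sum_eq_zero fun k hk => ?_
      exact (Finset.mem_filter.1 hk).2
    rw [h1]
    symm
    rw [Finset.card_eq_zero, Finset.filter_eq_empty_iff]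
    rintro l - ⟨hli, hN⟩
    have h2 : ∀ k, v i k ≤ v l k := by
      intro k
      by_cases h0 : v l k = 0
      · have h3 : k ∈ Finset.univ.filter (fun k => v i k = 0) := by
          refine hN ?_
          rw [Finset.mem_filter]
          exact ⟨Finset.mem_univ _, h0⟩
        rw [(Finset.mem_filter.1 h3).2]
        exact Nat.zero_le _
      · exact hmono l i k hli h0
    have h3 : v i = v l := by
      have h4 : ∑ k, v i k = ∑ k, v l k := by rw [hv, hv]
      funext k
      exact (Finset.sum_eq_sum_iff_of_le (fun k _ => h2 k)).1 h4 k (Finset.mem_univ k)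
    exact absurd (hinj h3) (ne_of_gt hli)

end Pool.Agent.Helper28.SO
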